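import Pool.Agent.Helper29_CF.Stmt

/-!
RFIN: finishing the rounding.
-/

namespace Pool.Agent.Helper29_CF.H73

open Finset

set_option linter.unusedSectionVars false

variable {V B : Type} [Fintype V] [DecidableEq V] [Fintype B] [DecidableEq B]

/-- the floats -/
noncomputable abbrev Fl (z : B → ℝ) : Finset B := univ.filter (fun b => z b ≠ 0 ∧ z b ≠ 1)

/-- the ones -/
noncomputable abbrev On (z : B → ℝ) : Finset B := univ.filter (fun b => z b = 1)


theorem sum_split (s : B → Finset V) (z : B → ℝ) (x : V) :
    ∑ b ∈ univ.filter (fun b => x ∈ s b), z b =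
      (deg s (On z) x : ℝ) + ∑ b ∈ (Fl z).filter (fun b => x ∈ s b), z b := by
  have h1 : ∀ b, z b = (if z b = 1 then (1 : ℝ) else 0) +
      (if z b ≠ 0 ∧ z b ≠ 1 then z b else 0) := by
    intro b
    by_cases h : z b = 1
    · simp [h]
    · by_cases h' : z b = 0
      · simp [h']
      · simp [h, h']
  have h2 : ∑ b ∈ univ.filter (fun b => x ∈ s b), z b =
      ∑ b ∈ univ.filter (fun b => x ∈ s b), ((if z b = 1 then (1 : ℝ) else 0) +
      (if z b ≠ 0 ∧ z b ≠ 1 then z b else 0)) := sum_congr rfl fun b _ => h1 b
  rw [h2, sum_add_distrib]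
  congr 1
  · rw [sum_boole, deg, filter_filter, filter_filter]
    congr 2
    ext b
    simp only [mem_filter, mem_univ, true_and]
    tauto
  · rw [← sum_filter, filter_filter, filter_filter]
    apply sum_congr _ fun _ _ => rfl
    ext b
    simp only [mem_filter, mem_univ, true_and]
    tauto


theorem float_pos {z : B → ℝ} (h : ∀ b, 0 ≤ z b ∧ z b ≤ 1) {b : B} (hb : b ∈ Fl z) :
    0 < z b ∧ z b < 1 := by
  simp only [mem_filter, mem_univ, true_and] at hb
  exact ⟨lt_of_le_of_ne (h b).1 (Ne.symm hb.1), lt_of_le_of_ne (h b).2 hb.2⟩

/-- the float sum at a point lies strictly between `0` and the float degree -/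
theorem float_sum (s : B → Finset V) {z : B → ℝ} (h : ∀ b, 0 ≤ z b ∧ z b ≤ 1) (x : V)
    (hx : 0 < deg s (Fl z) x) :
    0 < ∑ b ∈ (Fl z).filter (fun b => x ∈ s b), z b ∧
      ∑ b ∈ (Fl z).filter (fun b => x ∈ s b), z b < deg s (Fl z) x := by
  have hne : ((Fl z).filter (fun b => x ∈ s b)).Nonempty := card_pos.1 hx
  constructor
  · exact sum_pos (fun b hb => (float_pos h (mem_filter.1 hb).1).1) hne
  · have : ∑ b ∈ (Fl z).filter (fun b => x ∈ s b), z b <
        ∑ b ∈ (Fl z).filter (fun b => x ∈ s b), (1 : ℝ) :=
      sum_lt_sum_of_nonempty hne fun b hb => (float_pos h (mem_filter.1 hb).1).2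
    simpa [deg] using this

/-- number of incidences of a family with a set of points -/
theorem sum_deg (s : B → Finset V) (F : Finset B) (X : Finset V) :
    ∑ x ∈ X, deg s F x = ∑ b ∈ F, (s b ∩ X).card := by
  simp only [deg, card_filter]
  rw [sum_comm]
  refine sum_congr rfl fun b _ => ?_
  rw [← card_filter]
  congr 1
  ext x
  simp only [mem_filter, mem_inter]
  tauto

theorem sum_deg_univ (s : B → Finset V) (h3 : ∀ b, (s b).card = 3) (F : Finset B) :
    ∑ x, deg s F x = 3 * F.card := by
  rw [sum_deg]
  simp [h3, mul_comm]

theorem deg_mono (s : B → Finset V) {F F' : Finset B} (h : F ⊆ F') (x : V) :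
    deg s F x ≤ deg s F' x := card_le_card (filter_subset_filter _ h)

theorem deg_union_le (s : B → Finset V) (F F' : Finset B) (x : V) :
    deg s (F ∪ F') x ≤ deg s F x + deg s F' x := by
  unfold deg
  rw [filter_union]
  exact card_union_le _ _

theorem deg_union_disj (s : B → Finset V) {F F' : Finset B} (h : Disjoint F F') (x : V) :
    deg s (F ∪ F') x = deg s F x + deg s F' x := by
  unfold deg
  rw [filter_union]
  exact card_union_of_disjoint (disjoint_filter_filter h)


theorem on_fl_disj (z : B → ℝ) : Disjoint (On z) (Fl z) := by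
  rw [disjoint_left]
  intro b hb hb'
  simp only [mem_filter, mem_univ, true_and] at hb hb'
  exact hb'.2 hb

theorem rfin (hStep : StepStmt) : RFinStmt := by
  intro V B _ _ _ _ s τ z h3 hz
  induction hN : (Fl z).card using Nat.strong_induction_on generalizing z with
  | _ N ih =>
  obtain ⟨h01, hact, hina⟩ := hz
  set A : Finset V := univ.filter (fun x => 3 ≤ deg s (Fl z) x) with hA
  by_cases hlt : A.card < (Fl z).card
  · -- a step
    set R : Finset (Finset B) := A.image (fun x => univ.filter (fun b => x ∈ s b)) with hR
    obtain ⟨z', h01', hfix, hrow, hfl⟩ := hStep z R h01 (lt_of_le_of_lt card_image_le hlt)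
    have hsub : Fl z' ⊆ Fl z := by
      intro b hb
      simp only [mem_filter, mem_univ, true_and] at hb ⊢
      constructor
      · intro h; exact hb.1 (by rw [hfix b (Or.inl h)]; exact h)
      · intro h; exact hb.2 (by rw [hfix b (Or.inr h)]; exact h)
    have hon : On z ⊆ On z' := by
      intro b hb
      simp only [mem_filter, mem_univ, true_and] at hb ⊢
      rw [hfix b (Or.inr hb)]; exact hb
    have hall : On z' ∪ Fl z' ⊆ On z ∪ Fl z := by
      intro b hb
      simp only [mem_union, mem_filter, mem_univ, true_and] at hb ⊢
      by_contra hcon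
      have h0 : z b = 0 := by
        by_contra h0
        apply hcon
        by_cases h1 : z b = 1
        · exact Or.inl h1
        · exact Or.inr ⟨h0, h1⟩
      have h0' : z' b = 0 := by rw [hfix b (Or.inl h0)]; exact h0
      rcases hb with hb | hb
      · rw [h0'] at hb; norm_num at hb
      · exact hb.1 h0'
    have hsum : ∀ x, 3 ≤ deg s (Fl z) x → ∑ b ∈ univ.filter (fun b => x ∈ s b), z' b = τ := by
      intro x hx
      rw [hrow _ (mem_image_of_mem _ (by simp only [hA, mem_filter, mem_univ, true_and]; exact hx))]
      exact hact x hx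
    have hst : RState s τ z' := by
      refine ⟨h01', ?_, ?_⟩
      · intro x hx
        exact hsum x (le_trans hx (deg_mono s hsub x))
      · intro x hx
        by_cases hxa : 3 ≤ deg s (Fl z) x
        · have h1 := hsum x hxa
          rw [sum_split] at h1
          by_cases h0 : 0 < deg s (Fl z') x
          · obtain ⟨h2, h4⟩ := float_sum s h01' x h0
            have h5 : (deg s (On z') x : ℝ) < τ := by linarith
            have h6 : deg s (On z') x < τ := by exact_mod_cast h5
            have h7 : (τ : ℝ) < deg s (On z') x + deg s (Fl z') x := by linarith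
            have h8 : τ < deg s (On z') x + deg s (Fl z') x := by exact_mod_cast h7
            have h9 : deg s (Fl z') x ≤ 2 := hx
            show τ ≤ deg s (On z') x + 1 ∧ deg s (On z') x + deg s (Fl z') x ≤ τ + 1
            omega
          · have h0' : deg s (Fl z') x = 0 := by omega
            have h2 : (Fl z').filter (fun b => x ∈ s b) = ∅ := card_eq_zero.1 h0'
            rw [h2, sum_empty, add_zero] at h1
            have h3' : deg s (On z') x = τ := by exact_mod_cast h1
            show τ ≤ deg s (On z') x + 1 ∧ deg s (On z') x + deg s (Fl z') x ≤ τ + 1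
            omega
        · have h1 := hina x (by
            show deg s (Fl z) x ≤ 2
            omega)
          have h2 := deg_mono s hon x
          have h4 := deg_mono s hall x
          rw [deg_union_disj s (on_fl_disj z'), deg_union_disj s (on_fl_disj z)] at h4
          have h1a : τ ≤ deg s (On z) x + 1 := h1.1
          have h1b : deg s (On z) x + deg s (Fl z) x ≤ τ + 1 := h1.2
          show τ ≤ deg s (On z') x + 1 ∧ deg s (On z') x + deg s (Fl z') x ≤ τ + 1
          omega
    obtain ⟨K, hK1, hK0, hK⟩ := ih (Fl z').card (by rw [← hN]; exact hfl) z' hst rfl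
    refine ⟨K, fun b hb => hK1 b ?_, fun b hb => hK0 b ?_, hK⟩
    · rw [hfix b (Or.inr hb)]; exact hb
    · rw [hfix b (Or.inl hb)]; exact hb
  · -- counting: everything is tight
    push Not at hlt
    have hcount : ∑ x, deg s (Fl z) x = 3 * (Fl z).card := sum_deg_univ s h3 (Fl z)
    have hge : ∀ x, (if x ∈ A then 3 else 0) ≤ deg s (Fl z) x := by
      intro x
      split_ifs with h
      · simp only [hA, mem_filter, mem_univ, true_and] at h; exact h
      · exact Nat.zero_le _
    have hsumA : ∑ x, (if x ∈ A then 3 else 0) = 3 * A.card := by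
      rw [← sum_filter]
      simp [mul_comm]
    have heq : ∀ x, (if x ∈ A then 3 else 0) = deg s (Fl z) x := by
      have h1 : ∑ x, (if x ∈ A then 3 else 0) ≤ ∑ x, deg s (Fl z) x :=
        sum_le_sum fun x _ => hge x
      have h2 : ∑ x, deg s (Fl z) x ≤ ∑ x, (if x ∈ A then 3 else 0) := by
        rw [hcount, hsumA]; omega
      have h4 := (sum_eq_sum_iff_of_le (fun x _ => hge x)).1 (le_antisymm h1 h2)
      exact fun x => h4 x (mem_univ x)
    have hA3 : ∀ x ∈ A, deg s (Fl z) x = 3 := fun x hx => by rw [← heq x, if_pos hx]
    have hA0 : ∀ x, x ∉ A → deg s (Fl z) x = 0 := fun x hx => by rw [← heq x, if_neg hx]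
    -- Hall
    have hall : ∀ S : Finset {x // x ∈ A},
        S.card ≤ (S.biUnion (fun x => (Fl z).filter (fun b => x.1 ∈ s b))).card := by
      intro S
      set N' := S.biUnion (fun x => (Fl z).filter (fun b => x.1 ∈ s b)) with hN'
      set X : Finset V := S.map (Function.Embedding.subtype _) with hX
      have hXA : ∀ x ∈ X, x ∈ A := by
        intro x hx
        rw [hX, mem_map] at hx
        obtain ⟨y, _, rfl⟩ := hx
        exact y.2
      have hdeg : ∀ x ∈ X, deg s N' x = 3 := by
        intro x hx
        rw [← hA3 x (hXA x hx)]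
        apply le_antisymm
        · apply deg_mono
          intro b hb
          rw [hN', mem_biUnion] at hb
          obtain ⟨y, _, hb⟩ := hb
          exact (mem_filter.1 hb).1
        · unfold deg
          apply card_le_card
          intro b hb
          rw [mem_filter] at hb ⊢
          refine ⟨?_, hb.2⟩
          rw [hN', mem_biUnion]
          rw [hX, mem_map] at hx
          obtain ⟨y, hy, rfl⟩ := hx
          exact ⟨y, hy, mem_filter.2 hb⟩
      have h1 : ∑ x ∈ X, deg s N' x = 3 * X.card := by
        rw [sum_congr rfl hdeg]; simp [mul_comm]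
      have h2 : ∑ b ∈ N', (s b ∩ X).card ≤ ∑ b ∈ N', 3 :=
        sum_le_sum fun b _ => by rw [← h3 b]; exact card_le_card inter_subset_left
      rw [sum_deg] at h1
      rw [h1] at h2
      simp only [sum_const, smul_eq_mul] at h2
      have hcard : X.card = S.card := card_map _
      omega
    obtain ⟨φ, hinj, hφ⟩ := (all_card_le_biUnion_card_iff_exists_injective
      (fun x : {x // x ∈ A} => (Fl z).filter (fun b => x.1 ∈ s b))).1 hall
    have hφ1 : ∀ x, φ x ∈ Fl z := fun x => (mem_filter.1 (hφ x)).1
    have hφ2 : ∀ x, x.1 ∈ s (φ x) := fun x => (mem_filter.1 (hφ x)).2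
    -- the chosen floats
    set T : Finset B := (univ.filter (fun x : {x // x ∈ A} =>
      deg s (On z) x.1 + 2 = τ)).image φ with hT
    have hTF : T ⊆ Fl z := by
      intro b hb
      rw [hT, mem_image] at hb
      obtain ⟨x, _, rfl⟩ := hb
      exact hφ1 x
    have hdis : Disjoint (On z) T := (on_fl_disj z).mono_right hTF
    refine ⟨On z ∪ T, ?_, ?_, ?_⟩
    · intro b hb
      exact mem_union_left _ (by simp only [mem_filter, mem_univ, true_and]; exact hb)
    · intro b hb hmem
      rcases mem_union.1 hmem with h | h
      · simp only [mem_filter, mem_univ, true_and] at h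
        rw [h] at hb; norm_num at hb
      · have := hTF h
        simp only [mem_filter, mem_univ, true_and] at this
        exact this.1 hb
    · intro x
      rw [deg_union_disj s hdis]
      have hT3 : deg s T x ≤ deg s (Fl z) x := deg_mono s hTF x
      by_cases hx : x ∈ A
      · have hx3 := hA3 x hx
        have h1 := hact x (by
          show 3 ≤ deg s (Fl z) x
          omega)
        rw [sum_split] at h1
        obtain ⟨h2, h4⟩ := float_sum s h01 x (by omega)
        rw [hx3] at h4
        push_cast at h4
        have h5 : (deg s (On z) x : ℝ) < τ := by linarith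
        have h6 : deg s (On z) x < τ := by exact_mod_cast h5
        have h7 : (τ : ℝ) < deg s (On z) x + 3 := by linarith
        have h8 : τ < deg s (On z) x + 3 := by exact_mod_cast h7
        by_cases h9 : deg s (On z) x + 2 = τ
        · -- the float of `x` is chosen
          have : 1 ≤ deg s T x := by
            unfold deg
            apply card_pos.2
            refine ⟨φ ⟨x, hx⟩, mem_filter.2 ⟨?_, hφ2 ⟨x, hx⟩⟩⟩
            rw [hT]
            exact mem_image_of_mem _ (mem_filter.2 ⟨mem_univ _, h9⟩)
          omega
        · have : deg s T x ≤ 2 := by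
            have hlt' : deg s T x < deg s (Fl z) x := by
              unfold deg
              apply card_lt_card
              rw [ssubset_iff_of_subset (filter_subset_filter _ hTF)]
              refine ⟨φ ⟨x, hx⟩, mem_filter.2 ⟨hφ1 _, hφ2 ⟨x, hx⟩⟩, ?_⟩
              intro hmem
              have hm := (mem_filter.1 hmem).1
              rw [hT, mem_image] at hm
              obtain ⟨y, hy, hyx⟩ := hm
              have := hinj hyx
              rw [this] at hy
              exact h9 (mem_filter.1 hy).2
            omega
          omega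
      · have hx0 := hA0 x hx
        have h1 := hina x (by
          show deg s (Fl z) x ≤ 2
          omega)
        have h1a : τ ≤ deg s (On z) x + 1 := h1.1
        have h1b : deg s (On z) x + deg s (Fl z) x ≤ τ + 1 := h1.2
        omega

end Pool.Agent.Helper29_CF.H73
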