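import Pool.Agent.Helper29_CF.Stmt

/-!
RED: the dual form implies the case of maximum degree at most three.
-/

namespace Pool.Agent.Helper29_CF.H73

open Finset

section

variable {n : ℕ} (E : Finset (Finset (Fin n)))

/-- degree of a vertex -/
abbrev dg (v : Fin n) : ℕ := (E.filter (fun e => v ∈ e)).card

/-- points of the dual system -/
abbrev Pt (r : ℕ) : Type := ({e // e ∈ E} × Fin r) ⊕ (Σ v : Fin n, Fin (3 - dg E v))

/-- membership of a point in the block `(v, i)` -/
def Mem (r : ℕ) (b : Fin n × Fin r) : Pt E r → Bool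
  | Sum.inl (e, j) => decide (b.1 ∈ e.1 ∧ j = b.2)
  | Sum.inr p => decide (p.1 = b.1)

/-- the blocks -/
def bl (r : ℕ) (b : Fin n × Fin r) : Finset (Pt E r) := univ.filter (fun x => Mem E r b x = true)

theorem mem_bl_inl (r : ℕ) (b : Fin n × Fin r) (e : {e // e ∈ E}) (j : Fin r) :
    (Sum.inl (e, j) : Pt E r) ∈ bl E r b ↔ b.1 ∈ e.1 ∧ j = b.2 := by
  simp [bl, Mem]

theorem mem_bl_inr (r : ℕ) (b : Fin n × Fin r) (p : Σ v : Fin n, Fin (3 - dg E v)) :
    (Sum.inr p : Pt E r) ∈ bl E r b ↔ p.1 = b.1 := by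
  simp [bl, Mem]

theorem card_bl (r : ℕ) (hE : ∀ v, dg E v ≤ 3) (b : Fin n × Fin r) : (bl E r b).card = 3 := by
  have h1 : (bl E r b).card = ∑ x : Pt E r, if x ∈ bl E r b then 1 else 0 := by
    rw [← card_filter]; congr 1; ext x; simp
  rw [h1, Fintype.sum_sum_type]
  have h2 : ∑ x : {e // e ∈ E} × Fin r, (if (Sum.inl x : Pt E r) ∈ bl E r b then 1 else 0) =
      dg E b.1 := by
    rw [Fintype.sum_prod_type]
    have : ∀ e : {e // e ∈ E}, ∑ j : Fin r, (if (Sum.inl (e, j) : Pt E r) ∈ bl E r b then 1 else 0) =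
        if b.1 ∈ e.1 then 1 else 0 := by
      intro e
      simp only [mem_bl_inl]
      by_cases h : b.1 ∈ e.1
      · simp [h]
      · simp [h]
    simp only [this]
    rw [← card_filter]
    rw [dg]
    rw [← card_map (Function.Embedding.subtype _)]
    congr 1
    ext e
    simp only [mem_map, mem_filter, mem_univ, true_and, Function.Embedding.coe_subtype,
      Subtype.exists, exists_and_left, exists_prop]
    constructor
    · rintro ⟨a, h1, h2, rfl⟩; exact ⟨h2, h1⟩
    · rintro ⟨h1, h2⟩; exact ⟨e, h2, h1, rfl⟩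
  have h3 : ∑ x : (Σ v : Fin n, Fin (3 - dg E v)), (if (Sum.inr x : Pt E r) ∈ bl E r b then 1 else 0)
      = 3 - dg E b.1 := by
    simp only [mem_bl_inr]
    rw [Fintype.sum_sigma]
    rw [sum_eq_single b.1]
    · simp
    · intro c _ hc; simp [hc]
    · intro h; exact absurd (mem_univ _) h
  rw [h2, h3]
  have := hE b.1
  omega

theorem deg_inl (r : ℕ) (hr : ∀ e ∈ E, e.card = r) (e : {e // e ∈ E}) (j : Fin r) :
    deg (bl E r) univ (Sum.inl (e, j)) = r := by
  unfold deg
  have : univ.filter (fun b : Fin n × Fin r => (Sum.inl (e, j) : Pt E r) ∈ bl E r b) =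
      e.1.map ⟨fun v => (v, j), fun a b h => (Prod.ext_iff.1 h).1⟩ := by
    ext b
    simp only [mem_filter, mem_univ, true_and, mem_bl_inl, mem_map]
    constructor
    · rintro ⟨h1, h2⟩; exact ⟨b.1, h1, by rw [h2]; rfl⟩
    · rintro ⟨v, h1, rfl⟩; exact ⟨h1, rfl⟩
  rw [this, card_map, hr e.1 e.2]

theorem deg_inr (r : ℕ) (p : Σ v : Fin n, Fin (3 - dg E v)) :
    deg (bl E r) univ (Sum.inr p) = r := by
  unfold deg
  have : univ.filter (fun b : Fin n × Fin r => (Sum.inr p : Pt E r) ∈ bl E r b) =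
      (univ : Finset (Fin r)).map ⟨fun i => (p.1, i), fun a b h => (Prod.ext_iff.1 h).2⟩ := by
    ext b
    simp only [mem_filter, mem_univ, true_and, mem_bl_inr, mem_map]
    constructor
    · intro h; exact ⟨b.2, by rw [h]; rfl⟩
    · rintro ⟨i, rfl⟩; rfl
  rw [this, card_map, card_univ, Fintype.card_fin]

end

theorem red : RedStmt := by
  intro r hr hD n E hE h3
  obtain ⟨C, c, hC⟩ := hD (V := Pt E r) (B := Fin n × Fin r) (bl E r) (card_bl E r h3) (by
    rintro (⟨e, j⟩ | p)
    · exact deg_inl E r hE e j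
    · exact deg_inr E r p)
  set j0 : Fin r := ⟨0, hr⟩ with hj0
  refine ⟨fun v => if (v, j0) ∈ C then (if c (v, j0) = true then 0 else 1) else 2, ?_⟩
  intro e he
  have hx := hC (Sum.inl (⟨e, he⟩, j0))
  rcases hx with ⟨κ, hκ⟩ | hdeg
  · -- a colour occurs once
    unfold cdeg at hκ
    obtain ⟨b, hb⟩ := card_eq_one.1 hκ
    have hbm : b ∈ C.filter (fun b => (Sum.inl (⟨e, he⟩, j0) : Pt E r) ∈ bl E r b ∧ c b = κ) := by
      rw [hb]; exact mem_singleton_self b
    rw [mem_filter, mem_bl_inl] at hbm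
    obtain ⟨hbC, ⟨hbe, hbj⟩, hbκ⟩ := hbm
    have hb' : b = (b.1, j0) := by rw [hbj]
    refine ⟨b.1, hbe, ?_⟩
    intro u hu hne hcol
    beta_reduce at hcol
    rw [← hb', if_pos hbC, hbκ] at hcol
    by_cases huC : (u, j0) ∈ C
    · rw [if_pos huC] at hcol
      have hcu : c (u, j0) = κ := by
        cases κ <;> cases hcu : c (u, j0) <;> simp [hcu] at hcol ⊢
      have : (u, j0) ∈ C.filter
          (fun b => (Sum.inl (⟨e, he⟩, j0) : Pt E r) ∈ bl E r b ∧ c b = κ) := by
        rw [mem_filter, mem_bl_inl]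
        exact ⟨huC, ⟨hu, rfl⟩, hcu⟩
      rw [hb, mem_singleton] at this
      exact hne (by rw [← this])
    · rw [if_neg huC] at hcol
      cases κ <;> simp at hcol
  · -- exactly one block is not coloured
    have hall := deg_inl E r hE ⟨e, he⟩ j0
    have hcompl : (univ.filter (fun b : Fin n × Fin r =>
        (Sum.inl (⟨e, he⟩, j0) : Pt E r) ∈ bl E r b ∧ b ∉ C)).card = 1 := by
      have h1 : deg (bl E r) C (Sum.inl (⟨e, he⟩, j0)) + (univ.filter (fun b : Fin n × Fin r =>
        (Sum.inl (⟨e, he⟩, j0) : Pt E r) ∈ bl E r b ∧ b ∉ C)).card =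
          deg (bl E r) univ (Sum.inl (⟨e, he⟩, j0)) := by
        unfold deg
        rw [← card_union_of_disjoint]
        · congr 1
          ext b
          simp only [mem_union, mem_filter, mem_univ, true_and]
          tauto
        · rw [disjoint_left]
          intro b hb hb'
          exact (mem_filter.1 hb').2.2 (mem_filter.1 hb).1
      omega
    obtain ⟨b, hb⟩ := card_eq_one.1 hcompl
    have hbm : b ∈ univ.filter (fun b : Fin n × Fin r =>
        (Sum.inl (⟨e, he⟩, j0) : Pt E r) ∈ bl E r b ∧ b ∉ C) := by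
      rw [hb]; exact mem_singleton_self b
    rw [mem_filter, mem_bl_inl] at hbm
    obtain ⟨-, ⟨hbe, hbj⟩, hbC⟩ := hbm
    have hb' : b = (b.1, j0) := by rw [hbj]
    refine ⟨b.1, hbe, ?_⟩
    intro u hu hne hcol
    beta_reduce at hcol
    rw [← hb', if_neg hbC] at hcol
    by_cases huC : (u, j0) ∈ C
    · rw [if_pos huC] at hcol
      cases hcu : c (u, j0) <;> simp [hcu] at hcol
    · have : (u, j0) ∈ univ.filter (fun b : Fin n × Fin r =>
          (Sum.inl (⟨e, he⟩, j0) : Pt E r) ∈ bl E r b ∧ b ∉ C) := by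
        rw [mem_filter, mem_bl_inl]
        exact ⟨mem_univ _, ⟨hu, rfl⟩, huC⟩
      rw [hb, mem_singleton] at this
      exact hne (by rw [← this])

end Pool.Agent.Helper29_CF.H73
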